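import Pool.Agent.W2helper20.BC.Stm

/-!
# Project BC, piece MEAS: measurability of the reversal of geodesics
-/

set_option autoImplicit false

namespace Pool.Agent.W2helper6.BC

open Set Metric MeasureTheory
open Pool.Agent.Q176.BR
open Pool.Agent.W2helper20.BC

variable {n : ℕ} {g : Fld n}

/-- The retraction onto the closed unit ball. -/
noncomputable def ret (z : E n) : E n := (max 1 ‖z‖)⁻¹ • z

theorem ret_cont : Continuous (ret (n := n)) := by
  unfold ret
  refine Continuous.smul (Continuous.inv₀ (continuous_const.max continuous_norm) ?_) continuous_id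
  intro z
  exact (lt_max_of_lt_left one_pos).ne'

theorem ret_mem (z : E n) : ret z ∈ M n := by
  have h0 : (0 : ℝ) < max 1 ‖z‖ := lt_max_of_lt_left one_pos
  have h1 : ‖ret z‖ ≤ 1 := by
    unfold ret
    rw [norm_smul, norm_inv, Real.norm_eq_abs, abs_of_pos h0, inv_mul_le_iff₀ h0, mul_one]
    exact le_max_right _ _
  exact mem_closedBall_zero_iff.2 h1

theorem ret_eq {z : E n} (hz : z ∈ M n) : ret z = z := by
  have h1 : ‖z‖ ≤ 1 := mem_closedBall_zero_iff.1 hz
  unfold ret
  rw [max_eq_left h1, inv_one, one_smul]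

/-- A measurable extension of the inverse exponential maps. -/
noncomputable def lgm (g : Fld n) (p : E n × E n) : E n := lg g (ret p.1) (ret p.2)

theorem meas_lgm (hg : IsSimple g) : Measurable (lgm g) := by
  have hc : ∀ x : E n, Continuous fun y => lg g (ret x) (ret y) := fun x =>
    (hg.contDiffOn_lg (ret_mem x)).continuousOn.comp_continuous ret_cont ret_mem
  have hd : ∀ y : E n, Continuous fun x => lg g (ret x) (ret y) := by
    intro y
    have e : (fun x => lg g (ret x) (ret y)) =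
        fun x => -(ilg g (ret y) (ret x) (lg g (ret y) (ret x))) := by
      funext x
      exact hg.lg_symm (ret_mem y) (ret_mem x)
    rw [e]
    exact (((hg.continuousOn_ilg (ret_mem y)).comp_continuous ret_cont ret_mem).clm_apply
      (hc y)).neg
  exact measurable_uncurry_of_continuous_of_measurable (u := fun x y => lg g (ret x) (ret y)) hd
    (fun x => (hc x).measurable)

theorem p_meas : P_MEAS := by
  intro n g hg
  have hB : MeasurableSet (ball (0 : E n) 1 ×ˢ ball (0 : E n) 1) :=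
    measurableSet_ball.prod measurableSet_ball
  have hm := meas_lgm hg
  have hsub : ball (0 : E n) 1 ⊆ M n := ball_subset_closedBall
  have hlg : ∀ p ∈ ball (0 : E n) 1 ×ˢ ball (0 : E n) 1, lgm g p = lg g p.1 p.2 := by
    intro p hp
    unfold lgm
    rw [ret_eq (hsub hp.1), ret_eq (hsub hp.2)]
  have hlg' : ∀ p ∈ ball (0 : E n) 1 ×ˢ ball (0 : E n) 1, lgm g p.swap = lg g p.2 p.1 := by
    intro p hp
    exact hlg p.swap ⟨hp.2, hp.1⟩
  let Φ : E n × E n → E n × E n := fun p => (p.1, lgm g p)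
  have hΦ : Measurable Φ := measurable_fst.prodMk hm
  have hinj : InjOn Φ (ball (0 : E n) 1 ×ˢ ball (0 : E n) 1) := by
    intro p hp q hq h
    have h1 : p.1 = q.1 := (Prod.mk.inj h).1
    have h2 : lgm g p = lgm g q := (Prod.mk.inj h).2
    rw [hlg p hp, hlg q hq, h1] at h2
    have h3 := congrArg (ex g q.1) h2
    rw [hg.ex_lg (hsub hq.1) (hsub hp.2), hg.ex_lg (hsub hq.1) (hsub hq.2)] at h3
    exact Prod.ext h1 h3
  have himg : Φ '' (ball (0 : E n) 1 ×ˢ ball (0 : E n) 1) = DD g := by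
    ext p
    constructor
    · rintro ⟨q, hq, rfl⟩
      refine ⟨hq.1, q.2, hq.2, (hlg q hq).symm⟩
    · rintro ⟨hp1, y, hy, h⟩
      refine ⟨(p.1, y), ⟨hp1, hy⟩, ?_⟩
      refine Prod.ext rfl ?_
      change lgm g (p.1, y) = p.2
      rw [hlg (p.1, y) ⟨hp1, hy⟩]
      exact h
  refine ⟨himg ▸ hB.image_of_measurable_injOn hΦ hinj, ?_⟩
  have : StandardBorelSpace ↥(ball (0 : E n) 1 ×ˢ ball (0 : E n) 1) := hB.standardBorel
  have hemb : MeasurableEmbedding
      (fun p : ↥(ball (0 : E n) 1 ×ˢ ball (0 : E n) 1) => Φ p.1) := by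
    refine Measurable.measurableEmbedding (hΦ.comp measurable_subtype_coe) ?_
    intro p q h
    exact Subtype.ext (hinj p.2 q.2 h)
  obtain ⟨R, hR, hR2⟩ := hemb.exists_measurable_extend
    (g := fun p : ↥(ball (0 : E n) 1 ×ˢ ball (0 : E n) 1) => ((p.1.2, lgm g p.1.swap) : E n × E n))
    ((measurable_snd.prodMk (hm.comp measurable_swap)).comp measurable_subtype_coe)
    (fun _ => ⟨0⟩)
  refine ⟨R, hR, ?_⟩
  intro p hp
  obtain ⟨q, hq, rfl⟩ := himg.symm ▸ hp
  have h1 : R (Φ q) = (q.2, lgm g q.swap) := congrFun hR2 ⟨q, hq⟩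
  rw [h1]
  unfold rev
  have h2 : (Φ q).1 = q.1 := rfl
  have h3 : (Φ q).2 = lg g q.1 q.2 := hlg q hq
  rw [h2, h3, hg.ex_lg (hsub hq.1) (hsub hq.2), hlg' q hq]

end Pool.Agent.W2helper6.BC
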